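import Pool.Agent.H789R2.AN.Tr
import Pool.Agent.H721R2.Cone

set_option autoImplicit false

open Filter Topology Set Metric

namespace Pool.Agent.H789R2.AN

open Pool.Agent.H721R2

variable {X E : Type*} [MetricSpace X] [NormedAddCommGroup E] [NormedSpace ℝ E]

theorem a_lt_half (S : HypSys X E) : S.a < 1 / 2 := by
  have := S.Ka
  have := S.one_le_K
  have := S.a_nonneg
  nlinarith

theorem contrS_iter (S : HypSys X E) : ∃ ε₁ > 0, ∀ x y : X,
    S.SRel ε₁ x y → ∀ n : ℕ, dist (S.g^[n] x) (S.g^[n] y) ≤ (1 / 2) ^ n * dist x y := by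
  obtain ⟨ε₁, hε₁, h⟩ := S.contraction (1 / 2) (a_lt_half S)
  refine ⟨ε₁, hε₁, fun x y hxy n => ?_⟩
  induction n with
  | zero => simp
  | succ n ih =>
    rw [Function.iterate_succ_apply', Function.iterate_succ_apply', pow_succ]
    have := h _ _ (hxy.iter n)
    linarith

/-- A hyperbolic system has local product structure and uniform contraction. -/
theorem exists_LP [CompactSpace X] (S : HypSys X E) : ∃ c, LP S.g c := by
  obtain ⟨ε₁, hε₁, h1⟩ := contrS_iter S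
  obtain ⟨ε₂, hε₂, h2⟩ := contrS_iter S.symm
  obtain ⟨ε₀, hε₀, hlp⟩ := S.local_product
  have hK := S.one_le_K
  have hc1 : min ε₁ ε₂ ≤ ε₁ := min_le_left _ _
  have hc2 : min ε₁ ε₂ ≤ ε₂ := min_le_right _ _
  refine ⟨min ε₁ ε₂, lt_min hε₁ hε₂, ?_, ?_, ?_⟩
  · intro x y hxy n
    have h3 := h1 x y (fun k => (hxy k).trans hc1) n
    have h4 : dist x y ≤ min ε₁ ε₂ := hxy 0
    have h5 : (1 / 2 : ℝ) ^ n * dist x y ≤ (1 / 2) ^ n * min ε₁ ε₂ :=
      mul_le_mul_of_nonneg_left h4 (by positivity)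
    linarith
  · intro x y hxy n
    have h3 := h2 x y (fun k => (hxy k).trans hc2) n
    have h4 : dist x y ≤ min ε₁ ε₂ := hxy 0
    have h5 : (1 / 2 : ℝ) ^ n * dist x y ≤ (1 / 2) ^ n * min ε₁ ε₂ :=
      mul_le_mul_of_nonneg_left h4 (by positivity)
    have h6 : dist (S.g.symm^[n] x) (S.g.symm^[n] y) ≤ (1 / 2) ^ n * dist x y := h3
    linarith
  · intro ε hε
    refine ⟨min ε₀ (ε / (9 * S.K)), lt_min hε₀ (by positivity), fun x y hxy => ?_⟩
    have h3 : dist x y ≤ ε₀ := (hxy.trans_le (min_le_left _ _)).le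
    have h4 : dist x y ≤ ε / (9 * S.K) := (hxy.trans_le (min_le_right _ _)).le
    have h5 : 9 * S.K * dist x y ≤ ε := by
      rw [le_div_iff₀ (by positivity)] at h4
      linarith
    obtain ⟨z, hz1, hz2⟩ := hlp x y h3
    exact ⟨z, fun k => (hz1 k).trans h5, fun k => by rw [dist_comm]; exact (hz2 k).trans h5⟩

/-- One backward step of `S₂` contracts the local unstable sets of `S₁` when the unstable spaces
of `S₁` are contained in those of `S₂`. -/
theorem step_contr (S₁ S₂ : HypSys X E) (he : ∀ x, S₁.e x = S₂.e x)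
    (hV : ∀ x, S₁.Vu x ≤ S₂.Vu x) : ∃ ε > 0, ∀ x y, S₁.URel ε x y →
      dist (S₂.g.symm x) (S₂.g.symm y) ≤ 1 / 2 * dist x y := by
  have hK := S₂.one_le_K
  have hLs := S₂.one_le_Ls
  have hb0 := S₂.b_nonneg
  have hKb := S₂.Kb
  have hK0 : 0 < S₂.K := by linarith
  have hLs0 : 0 < S₂.Ls := by linarith
  set q := 2 + 3 * S₂.K * S₂.Ls with hq
  have hq0 : 0 < q := by positivity
  have hq4 : 1 ≤ 4 * q := by
    have : 0 < 3 * S₂.K * S₂.Ls := by positivity
    linarith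
  set η := 1 / (4 * q) with hη
  have hη0 : 0 < η := by positivity
  have hη1 : η ≤ 1 := by
    rw [hη, div_le_one (by positivity)]; exact hq4
  have hηq : η * q = 1 / 4 := by rw [hη]; field_simp
  obtain ⟨ε₁, hε₁, hcone⟩ := S₁.symm.coneS η hη0 hη1
  obtain ⟨r, hr, hA1⟩ := S₂.A1' η hη0
  refine ⟨min ε₁ (r / 2), lt_min hε₁ (by positivity), fun x y hxy => ?_⟩
  have hd0 : 0 ≤ dist x y := dist_nonneg
  obtain ⟨u, hu, s, hs, h1, -, h3⟩ := hcone x y (fun k => (hxy k).trans (min_le_left _ _))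
  have hxyr : dist x y < r := by
    have : dist x y ≤ min ε₁ (r / 2) := hxy 0
    have := min_le_right ε₁ (r / 2)
    linarith
  obtain ⟨s₂, hs₂, u₂, hu₂, h4, h5⟩ := hA1 x y hxyr
  have hu' : u ∈ S₂.Vu x := hV x hu
  have h1' : ‖S₂.e y - S₂.e x - (u + s)‖ ≤ η * dist x y := by
    rw [← he, ← he]; exact h1
  -- difference
  have hdiff : ‖s₂ + (u₂ - u)‖ ≤ 3 * η * dist x y := by
    have e1 : s₂ + (u₂ - u) = (S₂.e y - S₂.e x - (u + s)) - (S₂.e y - S₂.e x - (s₂ + u₂)) + s := by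
      abel
    rw [e1]
    have h6 := norm_add_le ((S₂.e y - S₂.e x - (u + s)) - (S₂.e y - S₂.e x - (s₂ + u₂))) s
    have h7 := norm_sub_le (S₂.e y - S₂.e x - (u + s)) (S₂.e y - S₂.e x - (s₂ + u₂))
    linarith
  obtain ⟨h6, h7⟩ := S₂.angle x s₂ hs₂ (u₂ - u) (Submodule.sub_mem _ hu₂ hu')
  have h8 : ‖s₂‖ ≤ 3 * S₂.K * (η * dist x y) := by
    calc ‖s₂‖ ≤ S₂.K * ‖s₂ + (u₂ - u)‖ := h6
      _ ≤ S₂.K * (3 * η * dist x y) := mul_le_mul_of_nonneg_left hdiff hK0.le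
      _ = _ := by ring
  have h9 : ‖u₂ - u‖ ≤ 3 * S₂.K * (η * dist x y) := by
    calc ‖u₂ - u‖ ≤ S₂.K * ‖s₂ + (u₂ - u)‖ := h7
      _ ≤ S₂.K * (3 * η * dist x y) := mul_le_mul_of_nonneg_left hdiff hK0.le
      _ = _ := by ring
  have hdist : ∀ p q : X, dist p q = ‖S₂.e q - S₂.e p‖ := fun p q => by
    rw [dist_comm, S₂.isom]
  have h10 : ‖u‖ ≤ dist x y + 2 * (η * dist x y) := by
    have e1 : u = (S₂.e y - S₂.e x) - (S₂.e y - S₂.e x - (u + s)) - s := by abel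
    have h11 := norm_sub_le ((S₂.e y - S₂.e x) - (S₂.e y - S₂.e x - (u + s))) s
    have h12 := norm_sub_le (S₂.e y - S₂.e x) (S₂.e y - S₂.e x - (u + s))
    rw [← e1] at h11
    rw [hdist x y]
    rw [hdist x y] at h1' h3
    linarith
  have h11 : ‖u₂‖ ≤ dist x y + 2 * (η * dist x y) + 3 * S₂.K * (η * dist x y) := by
    have e1 : u₂ = u + (u₂ - u) := by abel
    have h12 := norm_add_le u (u₂ - u)
    rw [← e1] at h12
    linarith
  have h12 := S₂.boundS x s₂ hs₂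
  have h13 := S₂.contrU x u₂ hu₂
  have h14 : dist (S₂.g.symm x) (S₂.g.symm y) ≤ η * dist x y + (‖S₂.D' x s₂‖ + ‖S₂.D' x u₂‖) := by
    rw [hdist]
    have e1 : S₂.e (S₂.g.symm y) - S₂.e (S₂.g.symm x) =
        (S₂.e (S₂.g.symm y) - S₂.e (S₂.g.symm x) - S₂.D' x (s₂ + u₂)) +
          (S₂.D' x s₂ + S₂.D' x u₂) := by rw [map_add]; abel
    rw [e1]
    have h15 := norm_add_le (S₂.e (S₂.g.symm y) - S₂.e (S₂.g.symm x) - S₂.D' x (s₂ + u₂))
      (S₂.D' x s₂ + S₂.D' x u₂)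
    have h16 := norm_add_le (S₂.D' x s₂) (S₂.D' x u₂)
    linarith
  have hb1 : S₂.b ≤ 1 / 16 := by nlinarith
  have h15 : S₂.Ls * ‖s₂‖ ≤ 3 * S₂.K * S₂.Ls * (η * dist x y) := by
    calc S₂.Ls * ‖s₂‖ ≤ S₂.Ls * (3 * S₂.K * (η * dist x y)) :=
          mul_le_mul_of_nonneg_left h8 hLs0.le
      _ = _ := by ring
  have h16 : S₂.b * ‖u₂‖ ≤ 1 / 16 * dist x y + 1 * (η * dist x y) := by
    have h17 : S₂.b * ‖u₂‖ ≤ S₂.b * (dist x y + 2 * (η * dist x y) + 3 * S₂.K * (η * dist x y)) :=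
      mul_le_mul_of_nonneg_left h11 hb0
    have h18 : S₂.b * dist x y ≤ 1 / 16 * dist x y := mul_le_mul_of_nonneg_right hb1 hd0
    have hz : 0 ≤ η * dist x y := by positivity
    have h19 : S₂.b * (η * dist x y) ≤ 1 / 16 * (η * dist x y) := mul_le_mul_of_nonneg_right hb1 hz
    have h20 : S₂.K * S₂.b * (η * dist x y) ≤ 1 / 16 * (η * dist x y) :=
      mul_le_mul_of_nonneg_right hKb hz
    have e2 : S₂.b * (dist x y + 2 * (η * dist x y) + 3 * S₂.K * (η * dist x y)) =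
      S₂.b * dist x y + 2 * (S₂.b * (η * dist x y)) + 3 * (S₂.K * S₂.b * (η * dist x y)) := by ring
    rw [e2] at h17
    linarith
  have h17 : η * dist x y + 3 * S₂.K * S₂.Ls * (η * dist x y) + 1 * (η * dist x y) =
      1 / 4 * dist x y := by
    rw [← hηq, hq]; ring
  linarith

theorem nested_WS [CompactSpace X] (S₁ S₂ : HypSys X E) (he : ∀ x, S₁.e x = S₂.e x)
    (hc : ∀ x, S₁.g (S₂.g x) = S₂.g (S₁.g x)) (hV : ∀ x, S₁.Vu x ≤ S₂.Vu x) :
    ∀ x y, WS S₁.g.symm x y → WS S₂.g.symm x y := by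
  obtain ⟨ε, hε, hstep⟩ := step_contr S₁ S₂ he hV
  have hc1 : ∀ x, S₂.g.symm (S₁.g.symm x) = S₁.g.symm (S₂.g.symm x) :=
    fun x => comm_symm_left (g := S₁.g.symm) (φ := S₂.g)
      (comm_symm_right (g := S₁.g) (φ := S₂.g) (fun x => (hc x).symm)) x
  have hloc : ∀ x y, S₁.URel ε x y → WS S₂.g.symm x y := by
    intro x y hxy
    have hall : ∀ n : ℕ, S₁.URel ε (S₂.g.symm^[n] x) (S₂.g.symm^[n] y) ∧
        dist (S₂.g.symm^[n] x) (S₂.g.symm^[n] y) ≤ dist x y * (1 / 2) ^ n := by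
      intro n
      induction n with
      | zero => exact ⟨hxy, by simp⟩
      | succ n ih =>
        rw [Function.iterate_succ_apply', Function.iterate_succ_apply']
        obtain ⟨ih1, ih2⟩ := ih
        constructor
        · intro k
          rw [← iter_comm (g := S₁.g.symm) (φ := S₂.g.symm) hc1,
            ← iter_comm (g := S₁.g.symm) (φ := S₂.g.symm) hc1]
          have h1 := hstep _ _ (ih1.iter k)
          have h2 := ih1 k
          have h3 : 0 ≤ dist (S₁.g.symm^[k] (S₂.g.symm^[n] x)) (S₁.g.symm^[k] (S₂.g.symm^[n] y)) :=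
            dist_nonneg
          linarith
        · have h1 := hstep _ _ ih1
          rw [pow_succ]
          linarith
    exact WS.of_SR (c := dist x y) fun n => (hall n).2
  intro x y hxy
  obtain ⟨m, hm⟩ := hxy.eventually_lt hε
  have h1 : S₁.URel ε (S₁.g.symm^[m] x) (S₁.g.symm^[m] y) := by
    intro k
    rw [← Function.iterate_add_apply, ← Function.iterate_add_apply]
    exact (hm _ (by omega)).le
  have h2 := (hloc _ _ h1).mapIter (φ := S₁.g)
    (comm_symm_right (g := S₂.g) (φ := S₁.g) hc) m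
  rwa [iterR, iterR] at h2

end Pool.Agent.H789R2.AN
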