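import Pool.Agent.H789R2.AN.Hyp

set_option autoImplicit false

open Filter Topology Set Metric

namespace Pool.Agent.H789R2.AN

open Pool.Agent.H721R2

section direction

variable {X E : Type*} [MetricSpace X] [NormedAddCommGroup E] [NormedSpace ℝ E]

/-- The local unstable set contains points in every unstable direction. -/
theorem direction [CompactSpace X] (S : HypSys X E) (η : ℝ) (hη : 0 < η) :
    ∃ r > 0, ∀ x, ∀ w ∈ S.Vu x, ‖w‖ < r →
      ∃ z, WS S.g.symm x z ∧ ‖S.e z - S.e x - w‖ ≤ η * ‖w‖ := by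
  have hK := S.one_le_K
  have hK0 : 0 < S.K := by linarith
  set K := S.K with hKdef
  set η₁ := min (1 / 4) (η / (200 * K ^ 2)) with hη₁
  have hη₁0 : 0 < η₁ := lt_min (by norm_num) (by positivity)
  have hη₁1 : η₁ ≤ 1 / 4 := min_le_left _ _
  have hη₁2 : 200 * K ^ 2 * η₁ ≤ η := by
    have : η₁ ≤ η / (200 * K ^ 2) := min_le_right _ _
    rw [le_div_iff₀ (by positivity)] at this
    linarith
  obtain ⟨r2, hr2, hA2⟩ := S.A2 η₁ hη₁0
  obtain ⟨ε₀, hε₀, hlp⟩ := S.local_product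
  obtain ⟨c, hc⟩ := exists_LP S
  obtain ⟨εs, hεs, hcS⟩ := S.coneS η₁ hη₁0 (by linarith)
  obtain ⟨εu, hεu, hcU⟩ := S.symm.coneS η₁ hη₁0 (by linarith)
  obtain ⟨r3, hr3, hA3⟩ := S.A3 η₁ hη₁0
  set ρ := min r2 (min ε₀ (min (min c εs) (min εu (r3 / 2)))) with hρ
  have hρ0 : 0 < ρ := lt_min hr2 (lt_min hε₀ (lt_min (lt_min hc.c_pos hεs)
    (lt_min hεu (by positivity))))
  refine ⟨ρ / (20 * K), by positivity, fun x w hw hwr => ?_⟩
  have hw20 : 20 * K * ‖w‖ ≤ ρ := by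
    rw [lt_div_iff₀ (by positivity)] at hwr
    linarith
  have hn0 : 0 ≤ ‖w‖ := norm_nonneg w
  have hKw : ‖w‖ ≤ K * ‖w‖ := by nlinarith
  have hρ2 : ρ ≤ r2 := min_le_left _ _
  have hρε₀ : ρ ≤ ε₀ := (min_le_right _ _).trans (min_le_left _ _)
  have hρ3 : ρ ≤ min (min c εs) (min εu (r3 / 2)) := (min_le_right _ _).trans (min_le_right _ _)
  have hρc : ρ ≤ c := hρ3.trans ((min_le_left _ _).trans (min_le_left _ _))
  have hρs : ρ ≤ εs := hρ3.trans ((min_le_left _ _).trans (min_le_right _ _))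
  have hρu : ρ ≤ εu := hρ3.trans ((min_le_right _ _).trans (min_le_left _ _))
  have hρr3 : ρ ≤ r3 / 2 := hρ3.trans ((min_le_right _ _).trans (min_le_right _ _))
  by_cases hw0 : w = 0
  · refine ⟨x, WS.refl _ _, ?_⟩
    rw [hw0]; simp
  have hwpos : 0 < ‖w‖ := norm_pos_iff.mpr hw0
  have hdist : ∀ p q : X, dist p q = ‖S.e q - S.e p‖ := fun p q => by
    rw [dist_comm, S.isom]
  -- the point y'
  obtain ⟨y, hy⟩ := hA2 x 0 (Submodule.zero_mem _) w hw (by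
    rw [zero_add]
    have : 1 * ‖w‖ < 20 * K * ‖w‖ := mul_lt_mul_of_pos_right (by linarith) hwpos
    linarith)
  rw [zero_add] at hy
  have hxy : dist x y ≤ 5 / 4 * ‖w‖ := by
    rw [hdist]
    have h1 := norm_add_le (S.e y - S.e x - w) w
    rw [sub_add_cancel] at h1
    have h2 : η₁ * ‖w‖ ≤ 1 / 4 * ‖w‖ := mul_le_mul_of_nonneg_right hη₁1 hn0
    linarith
  have hKd : K * dist x y ≤ 5 / 4 * (K * ‖w‖) := by
    have := mul_le_mul_of_nonneg_left hxy hK0.le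
    linarith
  obtain ⟨z, hz1, hz2⟩ := hlp y x (by
    rw [dist_comm]
    have : 20 * K * ‖w‖ = 20 * (K * ‖w‖) := by ring
    linarith)
  rw [dist_comm y x] at hz1 hz2
  have h12 : 9 * K * dist x y ≤ 12 * (K * ‖w‖) := by
    have : 9 * K * dist x y = 9 * (K * dist x y) := by ring
    linarith
  have h12' : 12 * (K * ‖w‖) ≤ ρ := by
    have : 20 * K * ‖w‖ = 20 * (K * ‖w‖) := by ring
    have : 0 ≤ K * ‖w‖ := by positivity
    linarith
  have hz1' : S.SRel ρ z y := (hz1.symm).mono (h12.trans h12')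
  have hz2' : S.URel ρ x z := (hz2.symm).mono (h12.trans h12')
  have hdzy : dist z y ≤ 12 * (K * ‖w‖) := (hz1.symm).dist_le.trans h12
  have hdxz : dist x z ≤ 12 * (K * ‖w‖) := (hz2.symm).dist_le.trans h12
  refine ⟨z, WS.of_SR (hc.cU _ _ (fun k => (hz2' k).trans hρc)), ?_⟩
  obtain ⟨u, hu, s, hs, h1, -, h2⟩ := hcU x z (fun k => (hz2' k).trans hρu)
  obtain ⟨s₁, hs₁, u₁, hu₁, h3, -, h4⟩ := hcS z y (fun k => (hz1' k).trans hρs)
  have h1' : ‖S.e z - S.e x - (u + s)‖ ≤ η₁ * dist x z := h1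
  -- transport s₁ to x
  obtain ⟨s₂, hs₂, h5⟩ := hA3 z x (by
    rw [dist_comm]
    have := hz2'.dist_le
    linarith) s₁ hs₁
  have hb1 : η₁ * dist x z ≤ 12 * K * (η₁ * ‖w‖) := by
    calc η₁ * dist x z ≤ η₁ * (12 * (K * ‖w‖)) := mul_le_mul_of_nonneg_left hdxz hη₁0.le
      _ = _ := by ring
  have hb2 : η₁ * dist z y ≤ 12 * K * (η₁ * ‖w‖) := by
    calc η₁ * dist z y ≤ η₁ * (12 * (K * ‖w‖)) := mul_le_mul_of_nonneg_left hdzy hη₁0.le
      _ = _ := by ring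
  have hs₁n : ‖s₁‖ ≤ 18 * (K * ‖w‖) := by
    have e1 : s₁ = (S.e y - S.e z) - (S.e y - S.e z - (s₁ + u₁)) - u₁ := by abel
    have h6 := norm_sub_le ((S.e y - S.e z) - (S.e y - S.e z - (s₁ + u₁))) u₁
    have h7 := norm_sub_le (S.e y - S.e z) (S.e y - S.e z - (s₁ + u₁))
    rw [← e1] at h6
    rw [← hdist z y] at h7
    have h8 : η₁ * dist z y ≤ 1 / 4 * dist z y := mul_le_mul_of_nonneg_right hη₁1 dist_nonneg
    linarith
  have h6 : ‖s₁ - s₂‖ ≤ 18 * K * (η₁ * ‖w‖) := by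
    calc ‖s₁ - s₂‖ ≤ η₁ * ‖s₁‖ := h5
      _ ≤ η₁ * (18 * (K * ‖w‖)) := mul_le_mul_of_nonneg_left hs₁n hη₁0.le
      _ = _ := by ring
  -- comparison
  have h7 : ‖s₂ + (u - w)‖ ≤ 67 * K * (η₁ * ‖w‖) := by
    have e1 : s₂ + (u - w) = (S.e y - S.e x - w) - (S.e y - S.e z - (s₁ + u₁)) -
        (S.e z - S.e x - (u + s)) - s - u₁ - (s₁ - s₂) := by abel
    rw [e1]
    have h8 := norm_sub_le ((S.e y - S.e x - w) - (S.e y - S.e z - (s₁ + u₁)) -
        (S.e z - S.e x - (u + s)) - s - u₁) (s₁ - s₂)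
    have h9 := norm_sub_le ((S.e y - S.e x - w) - (S.e y - S.e z - (s₁ + u₁)) -
        (S.e z - S.e x - (u + s)) - s) u₁
    have h10 := norm_sub_le ((S.e y - S.e x - w) - (S.e y - S.e z - (s₁ + u₁)) -
        (S.e z - S.e x - (u + s))) s
    have h11 := norm_sub_le ((S.e y - S.e x - w) - (S.e y - S.e z - (s₁ + u₁)))
        (S.e z - S.e x - (u + s))
    have h13 := norm_sub_le (S.e y - S.e x - w) (S.e y - S.e z - (s₁ + u₁))
    have h14 : η₁ * ‖w‖ ≤ K * (η₁ * ‖w‖) := by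
      have : 0 ≤ η₁ * ‖w‖ := by positivity
      nlinarith
    linarith
  obtain ⟨-, h8⟩ := S.angle x s₂ hs₂ (u - w) (Submodule.sub_mem _ hu hw)
  have h9 : ‖u - w‖ ≤ 67 * K ^ 2 * (η₁ * ‖w‖) := by
    calc ‖u - w‖ ≤ K * ‖s₂ + (u - w)‖ := h8
      _ ≤ K * (67 * K * (η₁ * ‖w‖)) := mul_le_mul_of_nonneg_left h7 hK0.le
      _ = _ := by ring
  have h10 : ‖S.e z - S.e x - w‖ ≤ 24 * K * (η₁ * ‖w‖) + 67 * K ^ 2 * (η₁ * ‖w‖) := by
    have e1 : S.e z - S.e x - w = (S.e z - S.e x - (u + s)) + s + (u - w) := by abel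
    rw [e1]
    have h11 := norm_add_le ((S.e z - S.e x - (u + s)) + s) (u - w)
    have h13 := norm_add_le (S.e z - S.e x - (u + s)) s
    linarith
  have h11 : K ≤ K ^ 2 := by nlinarith
  have h13 : 0 ≤ η₁ * ‖w‖ := by positivity
  have h14 : 24 * K * (η₁ * ‖w‖) ≤ 24 * K ^ 2 * (η₁ * ‖w‖) :=
    mul_le_mul_of_nonneg_right (by linarith) h13
  have h15 : 200 * K ^ 2 * η₁ * ‖w‖ ≤ η * ‖w‖ := mul_le_mul_of_nonneg_right hη₁2 hn0
  have h16 : 0 ≤ K ^ 2 * (η₁ * ‖w‖) := by positivity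
  have e2 : 200 * K ^ 2 * η₁ * ‖w‖ = 200 * (K ^ 2 * (η₁ * ‖w‖)) := by ring
  rw [e2] at h15
  have e3 : 24 * K ^ 2 * (η₁ * ‖w‖) = 24 * (K ^ 2 * (η₁ * ‖w‖)) := by ring
  have e4 : 67 * K ^ 2 * (η₁ * ‖w‖) = 67 * (K ^ 2 * (η₁ * ‖w‖)) := by ring
  rw [e3] at h14
  rw [e4] at h10
  linarith

end direction

section span

variable {X E : Type*} [MetricSpace X] [NormedAddCommGroup E] [InnerProductSpace ℝ E]

open scoped InnerProductSpace

/-- A closed set saturated by unstable sets: normal vectors are orthogonal to unstable spaces. -/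
theorem inner_le [CompactSpace X] (S : HypSys X E) {T : Set X}
    (hT : ∀ x ∈ T, ∀ y, WS S.g.symm x y → y ∈ T) {x : X} (hx : x ∈ T) (ν : E)
    (hmin : ∀ z ∈ T, ‖ν‖ ≤ ‖ν - (S.e z - S.e x)‖) {w : E} (hw : w ∈ S.Vu x) : ⟪ν, w⟫_ℝ ≤ 0 := by
  by_contra hcon
  push Not at hcon
  have hw0 : w ≠ 0 := by
    rintro rfl
    rw [inner_zero_right] at hcon
    exact lt_irrefl _ hcon
  have hwpos : 0 < ‖w‖ := norm_pos_iff.mpr hw0
  have hν0 : 0 ≤ ‖ν‖ := norm_nonneg ν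
  set q := ⟪ν, w⟫_ℝ with hq
  set η := min 1 (q / (4 * (‖ν‖ + 1) * ‖w‖)) with hη
  have hη0 : 0 < η := lt_min one_pos (by positivity)
  have hη1 : η ≤ 1 := min_le_left _ _
  have hη2 : η * (‖ν‖ * ‖w‖) ≤ q / 4 := by
    have h1 : η ≤ q / (4 * (‖ν‖ + 1) * ‖w‖) := min_le_right _ _
    rw [le_div_iff₀ (by positivity)] at h1
    have h2 : 0 ≤ η * ‖w‖ := by positivity
    have h3 : η * (4 * (‖ν‖ + 1) * ‖w‖) = 4 * (η * (‖ν‖ * ‖w‖)) + 4 * (η * ‖w‖) := by ring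
    linarith
  obtain ⟨r, hr, hdir⟩ := direction S η hη0
  set t := min (r / (2 * ‖w‖)) (q / (8 * ‖w‖ ^ 2)) with ht
  have ht0 : 0 < t := lt_min (by positivity) (by positivity)
  have ht1 : t * ‖w‖ ≤ r / 2 := by
    have h1 : t ≤ r / (2 * ‖w‖) := min_le_left _ _
    rw [le_div_iff₀ (by positivity)] at h1
    linarith
  have ht2 : t * ‖w‖ ^ 2 ≤ q / 8 := by
    have h1 : t ≤ q / (8 * ‖w‖ ^ 2) := min_le_right _ _
    rw [le_div_iff₀ (by positivity)] at h1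
    linarith
  have htw : ‖t • w‖ = t * ‖w‖ := by rw [norm_smul, Real.norm_eq_abs, abs_of_pos ht0]
  obtain ⟨z, hz1, hz2⟩ := hdir x (t • w) (Submodule.smul_mem _ _ hw) (by rw [htw]; linarith)
  have hzT := hT x hx z hz1
  have h1 := hmin z hzT
  set ρ := S.e z - S.e x - t • w with hρ
  have e1 : S.e z - S.e x = t • w + ρ := by rw [hρ]; abel
  rw [e1] at h1
  rw [htw] at hz2
  have h2 : ‖ν‖ ^ 2 ≤ ‖ν - (t • w + ρ)‖ ^ 2 := pow_le_pow_left₀ hν0 h1 2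
  rw [norm_sub_sq_real, inner_add_right, inner_smul_right] at h2
  have h3 : ‖t • w + ρ‖ ≤ 2 * (t * ‖w‖) := by
    have h4 := norm_add_le (t • w) ρ
    rw [htw] at h4
    have h5 : η * (t * ‖w‖) ≤ 1 * (t * ‖w‖) := mul_le_mul_of_nonneg_right hη1 (by positivity)
    linarith
  have h4 : ‖t • w + ρ‖ ^ 2 ≤ (2 * (t * ‖w‖)) ^ 2 := pow_le_pow_left₀ (norm_nonneg _) h3 2
  have h5 : -(‖ν‖ * ‖ρ‖) ≤ ⟪ν, ρ⟫_ℝ := by
    have := abs_real_inner_le_norm ν ρ
    rw [abs_le] at this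
    exact this.1
  have h6 : ‖ν‖ * ‖ρ‖ ≤ ‖ν‖ * (η * (t * ‖w‖)) := mul_le_mul_of_nonneg_left hz2 hν0
  have h7 : ‖ν‖ * (η * (t * ‖w‖)) = t * (η * (‖ν‖ * ‖w‖)) := by ring
  have h8 : t * (η * (‖ν‖ * ‖w‖)) ≤ t * (q / 4) := mul_le_mul_of_nonneg_left hη2 ht0.le
  have h9 : (2 * (t * ‖w‖)) ^ 2 = 4 * (t * (t * ‖w‖ ^ 2)) := by ring
  have h10 : t * (t * ‖w‖ ^ 2) ≤ t * (q / 8) := mul_le_mul_of_nonneg_left ht2 ht0.le
  have h11 : 0 < t * q := by positivity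
  rw [← hq] at h2
  nlinarith

/-- **Spanning**: a nonempty closed set saturated by the unstable sets of several hyperbolic
systems whose unstable spaces span is the whole (connected) space. -/
theorem eq_univ_of_span [CompactSpace X] [ConnectedSpace X] {ι : Type*} (S : ι → HypSys X E)
    (e : X → E) (he : ∀ i x, (S i).e x = e x) (i₀ : ι)
    (hspan : ∀ x, (S i₀).Vs x ⊔ (S i₀).Vu x ≤ ⨆ i, (S i).Vu x) {T : Set X}
    (hTc : IsClosed T) (hTn : T.Nonempty)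
    (hT : ∀ i, ∀ x ∈ T, ∀ y, WS (S i).g.symm x y → y ∈ T) : T = univ := by
  have hdist : ∀ p q : X, dist p q = ‖e q - e p‖ := fun p q => by
    rw [dist_comm, (S i₀).isom, he, he]
  suffices hopen : IsOpen T from IsClopen.eq_univ ⟨hTc, hopen⟩ hTn
  rw [Metric.isOpen_iff]
  intro p hp
  by_contra hcon
  push Not at hcon
  obtain ⟨r, hr, hA1⟩ := (S i₀).A1 (1 / 2) (by norm_num)
  have := hcon r hr
  rw [not_subset] at this
  obtain ⟨y, hy, hyT⟩ := this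
  rw [Metric.mem_ball] at hy
  obtain ⟨x, hx, hmin⟩ := hTc.isCompact.exists_infDist_eq_dist hTn y
  have hmin' : ∀ z ∈ T, dist y x ≤ dist y z := fun z hz => by
    rw [← hmin]; exact infDist_le_dist_of_mem hz
  have hyx : dist x y < r := by
    have := hmin' p hp
    rw [dist_comm]
    linarith
  set ν := e y - e x with hν
  have hνmin : ∀ z ∈ T, ‖ν‖ ≤ ‖ν - (e z - e x)‖ := by
    intro z hz
    have h1 := hmin' z hz
    rw [dist_comm y x, hdist x y, dist_comm y z, hdist z y] at h1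
    have e1 : ν - (e z - e x) = e y - e z := by rw [hν]; abel
    rw [e1]
    exact h1
  have horth : ∀ i, ∀ w ∈ (S i).Vu x, ⟪ν, w⟫_ℝ = 0 := by
    intro i w hw
    have hm : ∀ z ∈ T, ‖ν‖ ≤ ‖ν - ((S i).e z - (S i).e x)‖ := fun z hz => by
      rw [he, he]; exact hνmin z hz
    have h1 := inner_le (S i) (hT i) hx ν hm hw
    have h2 := inner_le (S i) (hT i) hx ν hm (Submodule.neg_mem _ hw)
    rw [inner_neg_right] at h2
    linarith
  have hle : (⨆ i, (S i).Vu x) ≤ (ℝ ∙ ν)ᗮ := by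
    apply iSup_le
    intro i w hw
    rw [Submodule.mem_orthogonal_singleton_iff_inner_right]
    exact horth i w hw
  obtain ⟨s, hs, u, hu, h1, -⟩ := hA1 x y hyx
  rw [he, he] at h1
  have hmem : s + u ∈ (ℝ ∙ ν)ᗮ :=
    hle (hspan x (Submodule.add_mem_sup hs hu))
  rw [Submodule.mem_orthogonal_singleton_iff_inner_right] at hmem
  have h2 : ⟪ν, ν - (s + u)⟫_ℝ = ‖ν‖ ^ 2 := by
    rw [inner_sub_right, hmem, sub_zero, real_inner_self_eq_norm_sq]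
  have h3 := real_inner_le_norm ν (ν - (s + u))
  rw [h2] at h3
  have h4 : ‖ν - (s + u)‖ ≤ 1 / 2 * ‖ν‖ := by
    have := hdist x y
    rw [this] at h1
    exact h1
  have h5 : ‖ν‖ * ‖ν - (s + u)‖ ≤ ‖ν‖ * (1 / 2 * ‖ν‖) :=
    mul_le_mul_of_nonneg_left h4 (norm_nonneg _)
  have h6 : ‖ν‖ ^ 2 ≤ 0 := by nlinarith
  have h7 : ‖ν‖ = 0 := by
    have := sq_nonneg ‖ν‖
    exact pow_eq_zero_iff (two_ne_zero) |>.mp (le_antisymm h6 this)
  have h8 : dist x y = 0 := by rw [hdist]; exact h7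
  have h9 : x = y := dist_eq_zero.mp h8
  exact hyT (h9 ▸ hx)

end span

end Pool.Agent.H789R2.AN
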