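import Mathlib

set_option autoImplicit false

open Filter Topology Set Metric

namespace Pool.Agent.H789R2.AN

variable {X : Type*} [MetricSpace X]

/-- The forward orbits of `x` and `y` stay within `ε`. -/
def SR (g : X ≃ₜ X) (ε : ℝ) (x y : X) : Prop := ∀ k : ℕ, dist (g^[k] x) (g^[k] y) ≤ ε

/-- `x` and `y` are forward asymptotic. -/
def WS (g : X ≃ₜ X) (x y : X) : Prop :=
  Tendsto (fun n : ℕ => dist (g^[n] x) (g^[n] y)) atTop (𝓝 0)

/-- Local product structure with uniform contraction of local stable and unstable sets. -/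
structure LP (g : X ≃ₜ X) (c : ℝ) : Prop where
  c_pos : 0 < c
  cS : ∀ x y, SR g c x y → ∀ n : ℕ, dist (g^[n] x) (g^[n] y) ≤ c * (1 / 2) ^ n
  cU : ∀ x y, SR g.symm c x y → ∀ n : ℕ, dist (g.symm^[n] x) (g.symm^[n] y) ≤ c * (1 / 2) ^ n
  lp : ∀ ε > 0, ∃ δ > 0, ∀ x y, dist x y < δ → ∃ z, SR g ε x z ∧ SR g.symm ε y z

theorem LP.symm {g : X ≃ₜ X} {c : ℝ} (h : LP g c) : LP g.symm c where
  c_pos := h.c_pos
  cS := h.cU
  cU := h.cS
  lp := fun ε hε => by
    obtain ⟨δ, hδ, h1⟩ := h.lp ε hε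
    refine ⟨δ, hδ, fun x y hxy => ?_⟩
    obtain ⟨z, h2, h3⟩ := h1 y x (by rwa [dist_comm])
    exact ⟨z, h3, h2⟩

theorem iterL (f : X ≃ₜ X) (n : ℕ) (x : X) : f.symm^[n] (f^[n] x) = x :=
  (Function.LeftInverse.iterate f.symm_apply_apply n) x

theorem iterR (f : X ≃ₜ X) (n : ℕ) (x : X) : f^[n] (f.symm^[n] x) = x :=
  (Function.LeftInverse.iterate f.apply_symm_apply n) x

theorem SR.symm' {g : X ≃ₜ X} {ε : ℝ} {x y : X} (h : SR g ε x y) : SR g ε y x := fun k => by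
  rw [dist_comm]; exact h k

theorem SR.mono {g : X ≃ₜ X} {ε ε' : ℝ} {x y : X} (h : SR g ε x y) (he : ε ≤ ε') :
    SR g ε' x y := fun k => (h k).trans he

theorem WS.refl (g : X ≃ₜ X) (x : X) : WS g x x := by
  simp [WS]

theorem WS.symm' {g : X ≃ₜ X} {x y : X} (h : WS g x y) : WS g y x := by
  unfold WS at *
  simpa only [dist_comm] using h

theorem WS.trans {g : X ≃ₜ X} {x y z : X} (h : WS g x y) (h' : WS g y z) : WS g x z := by
  have h1 := h.add h'
  rw [add_zero] at h1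
  exact squeeze_zero (fun _ => dist_nonneg) (fun n => dist_triangle _ (g^[n] y) _) h1

theorem WS.of_SR {g : X ≃ₜ X} {c : ℝ} {x y : X}
    (hc : ∀ n : ℕ, dist (g^[n] x) (g^[n] y) ≤ c * (1 / 2) ^ n) : WS g x y := by
  have h1 : Tendsto (fun n : ℕ => c * (1 / 2 : ℝ) ^ n) atTop (𝓝 0) := by
    have := (tendsto_pow_atTop_nhds_zero_of_lt_one (by norm_num : (0:ℝ) ≤ 1 / 2)
      (by norm_num)).const_mul c
    simpa using this
  exact squeeze_zero (fun _ => dist_nonneg) hc h1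

theorem WS.eventually_lt {g : X ≃ₜ X} {x y : X} (h : WS g x y) {ε : ℝ} (hε : 0 < ε) :
    ∃ m : ℕ, ∀ n ≥ m, dist (g^[n] x) (g^[n] y) < ε :=
  eventually_atTop.mp ((tendsto_order.mp h).2 ε hε)

theorem WS.iter {g : X ≃ₜ X} {x y : X} (m : ℕ) : WS g (g^[m] x) (g^[m] y) ↔ WS g x y := by
  unfold WS
  rw [← tendsto_add_atTop_iff_nat (f := fun n => dist (g^[n] x) (g^[n] y)) m]
  simp only [Function.iterate_add_apply]

theorem iter_comm {g φ : X ≃ₜ X} (hc : ∀ x, φ (g x) = g (φ x)) (n : ℕ) (x : X) :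
    φ (g^[n] x) = g^[n] (φ x) :=
  (Function.Semiconj.iterate_right (f := φ) (ga := g) (gb := g) hc n) x

theorem comm_symm_right {g φ : X ≃ₜ X} (hc : ∀ x, φ (g x) = g (φ x)) (x : X) :
    φ (g.symm x) = g.symm (φ x) := by
  apply g.injective
  rw [← hc, g.apply_symm_apply, g.apply_symm_apply]

theorem comm_symm_left {g φ : X ≃ₜ X} (hc : ∀ x, φ (g x) = g (φ x)) (x : X) :
    φ.symm (g x) = g (φ.symm x) := by
  apply φ.injective
  rw [hc, φ.apply_symm_apply, φ.apply_symm_apply]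

theorem WS.map [CompactSpace X] {g φ : X ≃ₜ X} (hc : ∀ x, φ (g x) = g (φ x)) {x y : X}
    (h : WS g x y) : WS g (φ x) (φ y) := by
  have hu : UniformContinuous φ := CompactSpace.uniformContinuous_of_continuous φ.continuous
  rw [Metric.uniformContinuous_iff] at hu
  refine tendsto_order.mpr ⟨fun a ha => Eventually.of_forall fun n => lt_of_lt_of_le ha dist_nonneg,
    fun a ha => ?_⟩
  obtain ⟨δ, hδ, h1⟩ := hu a ha
  filter_upwards [(tendsto_order.mp h).2 δ hδ] with n hn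
  rw [← iter_comm hc, ← iter_comm hc]
  exact h1 hn

/-- iterates of `φ` -/
theorem WS.mapIter [CompactSpace X] {g φ : X ≃ₜ X} (hc : ∀ x, φ (g x) = g (φ x)) {x y : X}
    (h : WS g x y) (n : ℕ) : WS g (φ^[n] x) (φ^[n] y) := by
  induction n with
  | zero => exact h
  | succ n ih =>
    rw [Function.iterate_succ_apply', Function.iterate_succ_apply']
    exact ih.map hc

/-- Closed invariant sets saturated by unstable sets. -/
structure IsAtt (g : X ≃ₜ X) (A : Set X) : Prop where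
  closed : IsClosed A
  nonempty : A.Nonempty
  inv : ∀ x, g x ∈ A ↔ x ∈ A
  sat : ∀ x ∈ A, ∀ y, WS g.symm x y → y ∈ A

theorem inv_iter {g : X ≃ₜ X} {A : Set X} (h : ∀ x, g x ∈ A ↔ x ∈ A) (n : ℕ) (x : X) :
    g^[n] x ∈ A ↔ x ∈ A := by
  induction n with
  | zero => exact Iff.rfl
  | succ n ih => rw [Function.iterate_succ_apply', h, ih]

theorem inv_symm {g : X ≃ₜ X} {A : Set X} (h : ∀ x, g x ∈ A ↔ x ∈ A) (x : X) :
    g.symm x ∈ A ↔ x ∈ A := by
  rw [← h, g.apply_symm_apply]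

/-- The basin of a set. -/
def Bas (g : X ≃ₜ X) (A : Set X) : Set X := {y | ∃ z ∈ A, WS g y z}

theorem LP.near {g : X ≃ₜ X} {c : ℝ} (h : LP g c) : ∃ δ > 0, ∀ A, IsAtt g A → ∀ x ∈ A, ∀ y,
    dist y x < δ → ∃ z ∈ A, SR g c y z := by
  obtain ⟨δ, hδ, h1⟩ := h.lp c h.c_pos
  refine ⟨δ, hδ, fun A hA x hx y hxy => ?_⟩
  obtain ⟨z, h2, h3⟩ := h1 y x hxy
  exact ⟨z, hA.sat x hx z (WS.of_SR (h.cU _ _ h3)), h2⟩

theorem subset_bas (g : X ≃ₜ X) (A : Set X) : A ⊆ Bas g A := fun x hx => ⟨x, hx, WS.refl g x⟩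

theorem bas_of_iter {g : X ≃ₜ X} {A : Set X} (hA : ∀ x, g x ∈ A ↔ x ∈ A) {n : ℕ} {y : X}
    (h : g^[n] y ∈ Bas g A) : y ∈ Bas g A := by
  obtain ⟨z, hz, h1⟩ := h
  refine ⟨g.symm^[n] z, (inv_iter (inv_symm hA) n z).mpr hz, ?_⟩
  rw [← WS.iter n, iterR]
  exact h1

theorem isOpen_bas {g : X ≃ₜ X} {c : ℝ} (h : LP g c) {A : Set X} (hA : IsAtt g A) :
    IsOpen (Bas g A) := by
  obtain ⟨δ, hδ, h1⟩ := h.near
  rw [isOpen_iff_mem_nhds]
  rintro y ⟨z, hz, hyz⟩
  obtain ⟨m, hm⟩ := hyz.eventually_lt hδ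
  have h2 := hm m le_rfl
  have h3 : {y' | dist (g^[m] y') (g^[m] z) < δ} ∈ 𝓝 y := by
    have hcont : Continuous fun y' => dist (g^[m] y') (g^[m] z) :=
      (g.continuous.iterate m).dist continuous_const
    exact (isOpen_lt hcont continuous_const).mem_nhds h2
  refine mem_of_superset h3 fun y' hy' => ?_
  obtain ⟨z', hz', h4⟩ := h1 A hA _ ((inv_iter hA.inv m z).mpr hz) _ hy'
  exact bas_of_iter hA.inv (n := m) ⟨z', hz', WS.of_SR (h.cS _ _ h4)⟩

theorem bas_map [CompactSpace X] {g φ : X ≃ₜ X} (hc : ∀ x, φ (g x) = g (φ x)) {A : Set X}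
    (hA : ∀ x, φ x ∈ A ↔ x ∈ A) (x : X) : φ x ∈ Bas g A ↔ x ∈ Bas g A := by
  constructor
  · rintro ⟨z, hz, h⟩
    refine ⟨φ.symm z, (inv_symm hA z).mpr hz, ?_⟩
    have := h.map (φ := φ.symm) (comm_symm_left hc)
    rwa [φ.symm_apply_apply] at this
  · rintro ⟨z, hz, h⟩
    exact ⟨φ z, (hA z).mpr hz, h.map hc⟩

/-- A point outside the attractor is backward asymptotic to a point outside the basin. -/
theorem exists_repeller [CompactSpace X] {g : X ≃ₜ X} {c : ℝ} (h : LP g c) {A : Set X}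
    (hA : IsAtt g A) {z : X} (hzA : z ∉ A) :
    ∃ w, w ∉ Bas g A ∧ WS g.symm z w := by
  set R : Set X := (Bas g A)ᶜ with hR
  have hRc : IsClosed R := (isOpen_bas h hA).isClosed_compl
  have hRinv : ∀ x, g x ∈ R ↔ x ∈ R := fun x => by
    rw [hR, mem_compl_iff, mem_compl_iff, bas_map (fun _ => rfl) hA.inv]
  have hdisj : Disjoint A R := by
    rw [hR]; exact (disjoint_compl_right_iff_subset).mpr (subset_bas g A)
  -- positive distance
  obtain ⟨ρ, hρ, hρAR⟩ : ∃ ρ > 0, ∀ a ∈ A, ∀ r ∈ R, ρ ≤ dist a r := by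
    obtain ⟨ρ, hρ, h1⟩ := exists_pos_forall_lt_edist hA.closed.isCompact hRc hdisj
    refine ⟨ρ, hρ, fun a ha r hr => ?_⟩
    have h2 := h1 a ha r hr
    rw [edist_dist, ← ENNReal.ofReal_coe_nnreal] at h2
    exact ((ENNReal.ofReal_lt_ofReal_iff_of_nonneg ρ.coe_nonneg).mp h2).le
  -- the sequence of backward iterates approaches R
  obtain ⟨δ, hδ, hnear⟩ := h.near
  have happ : ∀ η > 0, ∃ n : ℕ, ∃ r ∈ R, dist (g.symm^[n] z) r < η := by
    intro η hη
    by_contra hcon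
    push Not at hcon
    obtain ⟨y, -, φ, hφ, hlim⟩ := isCompact_univ.tendsto_subseq
      (fun n : ℕ => mem_univ (g.symm^[n] z))
    have hyO : y ∈ Bas g A := by
      by_contra hy
      have hyR : y ∈ R := hy
      have h1 : Tendsto (fun n => dist (g.symm^[φ n] z) y) atTop (𝓝 0) :=
        tendsto_iff_dist_tendsto_zero.mp hlim
      obtain ⟨n, hn⟩ := ((tendsto_order.mp h1).2 η hη).exists
      exact absurd hn (not_lt.mpr (hcon _ y hyR))
    obtain ⟨x, hx, hyx⟩ := hyO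
    obtain ⟨m, hm⟩ := hyx.eventually_lt (half_pos hδ)
    have h2 := hm m le_rfl
    have h3 : Tendsto (fun n => g^[m] (g.symm^[φ n] z)) atTop (𝓝 (g^[m] y)) :=
      ((g.continuous.iterate m).tendsto y).comp hlim
    have h4 := tendsto_iff_dist_tendsto_zero.mp h3
    -- z is in the closure of A
    apply hzA
    rw [← hA.closed.closure_eq, Metric.mem_closure_iff]
    intro ε hε
    have h5 : Tendsto (fun n : ℕ => c * (1 / 2 : ℝ) ^ n) atTop (𝓝 0) := by
      have := (tendsto_pow_atTop_nhds_zero_of_lt_one (by norm_num : (0:ℝ) ≤ 1 / 2)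
        (by norm_num)).const_mul c
      simpa using this
    obtain ⟨M, hM⟩ := eventually_atTop.mp ((tendsto_order.mp h5).2 ε hε)
    obtain ⟨n, hn1, hn2⟩ := (((tendsto_order.mp h4).2 _ (half_pos hδ)).and
      (eventually_ge_atTop (m + M))).exists
    have hφn : m + M ≤ φ n := hn2.trans (hφ.id_le n)
    have h6 : dist (g^[m] (g.symm^[φ n] z)) (g^[m] x) < δ := by
      have := dist_triangle (g^[m] (g.symm^[φ n] z)) (g^[m] y) (g^[m] x)
      linarith
    obtain ⟨z', hz', h7⟩ := hnear A hA _ ((inv_iter hA.inv m x).mpr hx) _ h6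
    have h8 := h.cS _ _ h7 (φ n - m)
    have e1 : g^[φ n - m] (g^[m] (g.symm^[φ n] z)) = z := by
      rw [← Function.iterate_add_apply, Nat.sub_add_cancel (by omega), iterR]
    rw [e1] at h8
    exact ⟨_, (inv_iter hA.inv _ z').mpr hz', lt_of_le_of_lt h8 (hM _ (by omega))⟩
  -- local product
  set ε := min (ρ / 2) c with hε
  have hε0 : 0 < ε := lt_min (half_pos hρ) h.c_pos
  obtain ⟨δ', hδ', hlp⟩ := h.lp ε hε0
  obtain ⟨n, r, hr, hnr⟩ := happ δ' hδ'
  obtain ⟨w, hw1, hw2⟩ := hlp r (g.symm^[n] z) (by rwa [dist_comm])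
  have hwR : w ∈ R := by
    by_contra hwR
    have hwO : w ∈ Bas g A := by
      by_contra h'; exact hwR h'
    obtain ⟨a, ha, hwa⟩ := hwO
    obtain ⟨m, hm⟩ := hwa.eventually_lt (half_pos hρ)
    have h1 := hm m le_rfl
    have h2 := hw1 m
    have h3 := hρAR _ ((inv_iter hA.inv m a).mpr ha) _ ((inv_iter hRinv m r).mpr hr)
    have h4 : ε ≤ ρ / 2 := min_le_left _ _
    have h5 := dist_triangle (g^[m] a) (g^[m] w) (g^[m] r)
    rw [dist_comm (g^[m] a) (g^[m] w), dist_comm (g^[m] w) (g^[m] r)] at h5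
    linarith
  refine ⟨g^[n] w, (inv_iter hRinv n w).mpr hwR, ?_⟩
  rw [← WS.iter n, iterL]
  exact WS.of_SR (h.cU _ _ (hw2.mono (min_le_right _ _)))

/-- **Theorem A**: an attractor of `g` is saturated by the stable sets of every homeomorphism `φ`
which commutes with `g`, preserves the attractor and contracts the unstable sets of `g`. -/
theorem theoremA [CompactSpace X] {g φ : X ≃ₜ X} {c : ℝ} (h : LP g c)
    (hc : ∀ x, φ (g x) = g (φ x)) (hsub : ∀ x y, WS g.symm x y → WS φ x y) {A : Set X}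
    (hA : IsAtt g A) (hφ : ∀ x, φ x ∈ A ↔ x ∈ A) : ∀ x ∈ A, ∀ y, WS φ x y → y ∈ A := by
  have step1 : ∀ x ∈ A, ∀ y, WS φ x y → y ∈ Bas g A := by
    intro x hx y hxy
    obtain ⟨δ, hδ, hnear⟩ := h.near
    obtain ⟨m, hm⟩ := hxy.eventually_lt hδ
    have h1 := hm m le_rfl
    rw [dist_comm] at h1
    obtain ⟨z, hz, h2⟩ := hnear A hA _ ((inv_iter hφ m x).mpr hx) _ h1
    have h3 : φ^[m] y ∈ Bas g A := ⟨z, hz, WS.of_SR (h.cS _ _ h2)⟩
    exact (inv_iter (bas_map hc hφ) m y).mp h3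
  intro x hx y hxy
  by_contra hy
  obtain ⟨w, hw, h1⟩ := exists_repeller h hA hy
  exact hw (step1 x hx w (hxy.trans (hsub _ _ h1)))

end Pool.Agent.H789R2.AN
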